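import Mathlib
import Pool.Agent.N392.Approx.Defs
import Pool.Agent.N392.Approx.Main

set_option autoImplicit false

namespace Pool.Agent.Results.MP_d0f9e0_co.CovariantApproximate

open Pool.Agent.N392.Approx

/-- **Group covariant approximate maximal ETFs.** Let `F` be a finite field with `q` elements of
characteristic at least five and `ψ` a non-trivial additive character of `F`. There is a vector
`x` in `ℂ^q = ℂ^F` whose `q²` time-frequency shifts are unit vectors, form an exactly tight frame,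
satisfy `|(q + 1) |⟨x_v, x_w⟩|² - 1| ≤ 10 q^(-1/4)` for all `v ≠ w`, and satisfy
`|⟨x_v, x_w⟩| = 1 / √(q + 1)` exactly if `v ≠ w` have the same first coordinate. -/
theorem result {F : Type*} [Field F] [Fintype F] (h2 : (2 : F) ≠ 0) (h3 : (3 : F) ≠ 0)
    {ψ : AddChar F ℂ} (hψ : ψ ≠ 1) :
    ∃ x : EuclideanSpace ℂ F,
      (∀ v : F × F, ‖shift ψ v x‖ = 1) ∧
      (∀ y : EuclideanSpace ℂ F,
        ∑ v : F × F, ‖inner ℂ (shift ψ v x) y‖ ^ 2 = Fintype.card F * ‖y‖ ^ 2) ∧
      (∀ v w : F × F, v ≠ w →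
        |((Fintype.card F : ℝ) + 1) * ‖inner ℂ (shift ψ v x) (shift ψ w x)‖ ^ 2 - 1| ≤
          10 * (Fintype.card F : ℝ) ^ (-(1 / 4) : ℝ)) ∧
      (∀ v w : F × F, v ≠ w → v.1 = w.1 →
        ‖inner ℂ (shift ψ v x) (shift ψ w x)‖ = 1 / Real.sqrt ((Fintype.card F : ℝ) + 1)) :=
  main h2 h3 hψ

end Pool.Agent.Results.MP_d0f9e0_co.CovariantApproximate
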