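import Mathlib
import Pool.Agent.N392.Leg.Defs
import Pool.Agent.N392.Leg.Main

set_option autoImplicit false

namespace Pool.Agent.Results.MP_d0f9e0_co.LegendreFiducials

open Pool.Agent.N392.Leg

/-- **Classification of the prime dimensions in which Appleby's construction works.** For a prime
`p` there is a vector `x` whose `p ^ 2` time-frequency shifts form a maximal equiangular tight
frame in `ℂ^p` and whose entry at `k` depends only on the quadratic character of `k`, if and only
if `p` is `2`, `3`, `7` or `19`. -/
theorem result (p : ℕ) [Fact p.Prime] :
    (∃ x : EuclideanSpace ℂ (ZMod p), IsLegendre x ∧ IsFiducial x) ↔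
      p = 2 ∨ p = 3 ∨ p = 7 ∨ p = 19 :=
  main p

end Pool.Agent.Results.MP_d0f9e0_co.LegendreFiducials
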