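import Mathlib
import Pool.Agent.N392.Ab.Defs
import Pool.Agent.N392.Ab.Rat

set_option autoImplicit false

namespace Pool.Agent.Results.MP_d0f9e0_co.RationalModuli

open Pool.Agent.N392.Ab

/-- **A Bruck-Ryser type condition for fiducial vectors.** Let `A` be a finite abelian group of
order `d` and `x` a vector in `ℂ^d = ℂ^A` whose `d²` time-frequency shifts form a maximal
equiangular tight frame. If all the numbers `|x_k|²` are rational, then `d + 1` is a perfect square
if `d` is even, and a sum of two squares if `d ≡ 1 mod 4`. -/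
theorem result {A : Type*} [AddCommGroup A] [Fintype A] {x : EuclideanSpace ℂ A}
    (h : IsFiducial x) (hr : ∀ k, ∃ r : ℚ, ‖x k‖ ^ 2 = r) :
    (Even (Fintype.card A) → IsSquare (Fintype.card A + 1)) ∧
    (Fintype.card A % 4 = 1 → ∃ a b : ℕ, Fintype.card A + 1 = a ^ 2 + b ^ 2) :=
  rational h hr

end Pool.Agent.Results.MP_d0f9e0_co.RationalModuli
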