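import Mathlib
import Pool.Agent.N392.Ab.Defs
import Pool.Agent.N392.Ab.OneMain

set_option autoImplicit false

namespace Pool.Agent.Results.MP_d0f9e0_co.SporadicFiducials

open Pool.Agent.N392.Ab

/-- **A characterisation of the sporadic maximal ETFs.** For a finite abelian group `A` of order
`d` there is a vector in `ℂ^d = ℂ^A` with all coordinates but one equal whose `d²` time-frequency
shifts form a maximal equiangular tight frame if and only if `d ≤ 3`, or `d = 8` and `A` is an
elementary abelian two-group (the Hoggar lines). -/
theorem result (A : Type*) [AddCommGroup A] [Fintype A] :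
    (∃ (x : EuclideanSpace ℂ A) (c : ℂ), (∀ k, k ≠ 0 → x k = c) ∧ IsFiducial x) ↔
      Fintype.card A ≤ 3 ∨ (Fintype.card A = 8 ∧ ∀ a : A, a + a = 0) :=
  main A

end Pool.Agent.Results.MP_d0f9e0_co.SporadicFiducials
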